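import Pool.Agent.H207.BT.Stm3

/-!
# Task REAL2: the real estimates in `S_TOP` (helper340, subtask of helper207)
-/

set_option autoImplicit false

namespace Pool.Agent.H340.BT207

theorem t_REAL2 : Pool.Agent.H207.BT.S_REAL2 := by
  intro C c μ B K β σ M hc hμ hμC hB hK hβ hlog hσ hσ1
  obtain ⟨s, hs⟩ : ∃ s : ℝ, s = σ / (2 * B) := ⟨_, rfl⟩
  have hB0 : 0 < B := by linarith
  have hK0 : 0 < K := by linarith
  have hs0 : 0 < s := by rw [hs]; positivity
  have hs1 : s ≤ 1 := by
    rw [hs, div_le_one (by positivity)]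
    linarith
  obtain ⟨la, hla⟩ : ∃ la : ℝ, la = Real.log c - Real.log B := ⟨_, rfl⟩
  obtain ⟨ls, hls⟩ : ∃ ls : ℝ, ls = Real.log s := ⟨_, rfl⟩
  obtain ⟨k1, hk1⟩ : ∃ k1 : ℝ, k1 = (1 + β) * (la + ls + 8 * β * (la - ls)) := ⟨_, rfl⟩
  obtain ⟨k2, hk2⟩ : ∃ k2 : ℝ, k2 = la + 8 * β * (la - ls) + β * (la + ls) := ⟨_, rfl⟩
  obtain ⟨lt, hlt⟩ : ∃ lt : ℝ, lt = Real.log B + Real.log K := ⟨_, rfl⟩
  obtain ⟨T, hT⟩ : ∃ T : ℝ, T = (|lt| + |k1| + |k2| + |Real.log σ|) / (7 * β) := ⟨_, rfl⟩
  have hT0 : 0 ≤ T := by rw [hT]; positivity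
  have hTβ : 7 * β * T = |lt| + |k1| + |k2| + |Real.log σ| := by
    rw [hT]
    field_simp
  refine ⟨Real.exp (-T), Real.exp_pos _, ?_⟩
  intro r P N m hr hr0 hm hmM hP hPC hrP hH
  have hlr : Real.log r ≤ -T := by
    rw [← Real.log_exp (-T)]
    exact Real.log_le_log hr hr0
  obtain ⟨lr, hlr'⟩ : ∃ lr : ℝ, lr = Real.log r := ⟨_, rfl⟩
  obtain ⟨X, hX⟩ : ∃ X : ℝ, X = σ / (2 * B) * (r * P) := ⟨_, rfl⟩
  have hX0 : 0 < X := by rw [hX]; positivity
  have hX1 : X ≤ 1 := by
    rw [hX, ← hs]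
    calc s * (r * P) ≤ 1 * 1 := mul_le_mul hs1 hrP (by positivity) (by norm_num)
      _ = 1 := by norm_num
  have hXe : (r * P) / (2 * B / σ) = X := by
    rw [hX]
    field_simp
  rw [hXe] at hH
  rw [← hX]
  obtain ⟨lX, hlX⟩ : ∃ lX : ℝ, lX = Real.log X := ⟨_, rfl⟩
  obtain ⟨lP, hlP⟩ : ∃ lP : ℝ, lP = Real.log P := ⟨_, rfl⟩
  have F0 : lX = ls + lr + lP := by
    rw [hlX, hX, ← hs, Real.log_mul hs0.ne' (by positivity), Real.log_mul hr.ne' hP.ne', hls,
      hlr', hlP]
    ring
  have hlX0 : lX ≤ 0 := by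
    rw [hlX]
    exact Real.log_nonpos hX0.le hX1
  have hlμ : 0 < Real.log μ := Real.log_pos hμ
  have F1 : la + N * Real.log μ ≤ m * lX + lP := by
    have h1 := Real.log_le_log (by positivity) hH
    rw [Real.log_mul hc.ne' (by positivity), Real.log_pow,
      Real.log_mul (by positivity) hP.ne', Real.log_mul hB0.ne' (by positivity), Real.log_pow,
      ← hlX, ← hlP] at h1
    push_cast at h1
    rw [hla]
    linarith
  have hC0 : 0 < C := by linarith
  have F2 : lP ≤ N * Real.log C := by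
    have h1 := Real.log_le_log hP hPC
    rw [Real.log_pow, ← hlP] at h1
    exact h1
  have hN : (0 : ℝ) ≤ N := Nat.cast_nonneg N
  have hNμ : 0 ≤ N * Real.log μ := mul_nonneg hN hlμ.le
  have hm1 : (1 : ℝ) ≤ m := by exact_mod_cast hm
  have F4 : la + N * Real.log μ + ls + lr ≤ (m + 1) * lX := by
    have h1 : ((m : ℝ) + 1) * lX = m * lX + (ls + lr + lP) := by
      rw [← F0]
      ring
    rw [h1]
    linarith
  have F5 : la + ls + lr ≤ 2 * lX := by
    have h1 : ((m : ℝ) + 1) * lX ≤ 2 * lX :=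
      mul_le_mul_of_nonpos_right (by linarith) hlX0
    linarith
  have F6 : (la - ls - lr) / 2 ≤ lP := by linarith
  have F7 : 8 * β * (la - ls - lr) ≤ N * Real.log μ := by
    have h1 : β * lP ≤ β * (N * Real.log C) := mul_le_mul_of_nonneg_left F2 hβ.le
    have h2 : N * (β * Real.log C) ≤ N * (Real.log μ / 16) := mul_le_mul_of_nonneg_left hlog hN
    have h3 : β * ((la - ls - lr) / 2) ≤ β * lP := mul_le_mul_of_nonneg_left F6 hβ.le
    nlinarith
  have hTlr : 7 * β * T ≤ -(7 * β * lr) := by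
    have h1 : 7 * β * T ≤ 7 * β * (-lr) := by
      apply mul_le_mul_of_nonneg_left _ (by positivity)
      rw [hlr']
      linarith
    linarith
  have hlrn : 0 ≤ -lr := by
    rw [hlr']
    linarith
  have hb2 : 0 ≤ 8 * β ^ 2 * (-lr) := mul_nonneg (by positivity) hlrn
  have G1 : lt + lr ≤ (1 + β) * (((m : ℝ) + 1) * lX) := by
    have h1 : (1 + β) * (la + 8 * β * (la - ls - lr) + ls + lr) ≤
        (1 + β) * (((m : ℝ) + 1) * lX) := by
      apply mul_le_mul_of_nonneg_left _ (by positivity)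
      linarith
    have h2 : (1 + β) * (la + 8 * β * (la - ls - lr) + ls + lr) =
        k1 + lr - 7 * β * lr + 8 * β ^ 2 * (-lr) := by
      rw [hk1]
      ring
    have h3 := le_abs_self lt
    have h4 := neg_abs_le k1
    have h5 := abs_nonneg k2
    have h6 := abs_nonneg (Real.log σ)
    linarith
  have G2 : lt ≤ Real.log σ + (m * ((1 + β) * lX) + lP) := by
    have h1 : β * (la + ls + lr) ≤ β * (((m : ℝ) + 1) * lX) := by
      apply mul_le_mul_of_nonneg_left _ hβ.le
      linarith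
    have h2 : β * (((m : ℝ) + 1) * lX) ≤ β * (m * lX) := by
      apply mul_le_mul_of_nonneg_left _ hβ.le
      linarith
    have h3 : la + 8 * β * (la - ls - lr) + β * (la + ls + lr) = k2 - 7 * β * lr := by
      rw [hk2]
      ring
    have h4 : m * ((1 + β) * lX) + lP = (m * lX + lP) + β * (m * lX) := by ring
    have h5 := le_abs_self lt
    have h6 := neg_abs_le k2
    have h7 := abs_nonneg k1
    have h8 := neg_abs_le (Real.log σ)
    linarith
  have hpow : 0 < (X ^ (m + 1)) ^ (1 + β) := by positivity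
  have hlogpow : Real.log ((X ^ (m + 1)) ^ (1 + β)) = (1 + β) * (((m : ℝ) + 1) * lX) := by
    rw [Real.log_rpow (by positivity), Real.log_pow, ← hlX]
    push_cast
    ring
  have hBK : Real.log (B * K * r) = lt + lr := by
    rw [Real.log_mul (by positivity) hr.ne', Real.log_mul hB0.ne' hK0.ne', hlt, hlr']
  refine ⟨?_, fun y' hy1 hy2 => ⟨?_, ?_⟩⟩
  · have h1 : B * K * r ≤ (X ^ (m + 1)) ^ (1 + β) := by
      rw [← Real.log_le_log_iff (by positivity) hpow, hBK, hlogpow]
      exact G1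
    have h2 : K * r ≤ B * K * r := by
      rw [mul_assoc]
      exact le_mul_of_one_le_left (by positivity) hB
    linarith
  · have hy0 : 0 < y' := lt_of_lt_of_le (by positivity) hy1
    have hly : (1 + β) * lX ≤ Real.log y' := by
      have h1 := Real.log_le_log (by positivity) hy1
      rwa [Real.log_rpow hX0, ← hlX] at h1
    rw [← Real.log_le_log_iff (by positivity) (by positivity), hBK, Real.log_pow]
    push_cast
    have h2 : ((m : ℝ) + 1) * ((1 + β) * lX) ≤ ((m : ℝ) + 1) * Real.log y' :=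
      mul_le_mul_of_nonneg_left hly (by positivity)
    have h3 : ((m : ℝ) + 1) * ((1 + β) * lX) = (1 + β) * (((m : ℝ) + 1) * lX) := by ring
    linarith
  · have hy0 : 0 < y' := lt_of_lt_of_le (by positivity) hy1
    have hly : (1 + β) * lX ≤ Real.log y' := by
      have h1 := Real.log_le_log (by positivity) hy1
      rwa [Real.log_rpow hX0, ← hlX] at h1
    rw [← Real.log_le_log_iff (by positivity) (by positivity),
      Real.log_mul hB0.ne' hK0.ne', ← hlt, Real.log_mul hσ.ne' (by positivity),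
      Real.log_mul (by positivity) hP.ne', Real.log_pow, ← hlP]
    have h2 : (m : ℝ) * ((1 + β) * lX) ≤ m * Real.log y' :=
      mul_le_mul_of_nonneg_left hly (by positivity)
    linarith

end Pool.Agent.H340.BT207
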